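import Pool.Agent.X92.TE8

/-!
A biharmonic function on the whole plane that vanishes on two distinct ellipses is identically
zero (ellipses with arbitrary centres and axes; circles are included).
-/

set_option autoImplicit false

namespace Pool.Agent.Results.MP_c27a16_an.TwoEllipses

open ComplexConjugate InnerProductSpace Laplacian

/-- the Euclidean plane -/
abbrev Plane : Type := EuclideanSpace ℝ (Fin 2)

/-- The class `H²(ℝ²)`: real-analytic functions on the plane with `Δ(Δu) = 0` everywhere. -/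
def Biharmonic (u : Plane → ℝ) : Prop :=
  AnalyticOnNhd ℝ u Set.univ ∧ ∀ x, (Δ (Δ u)) x = 0

/-- An ellipse: the set `(x - c)ᵀ A (x - c) = 1` with `A` real symmetric positive definite. -/
def IsEllipse (E : Set Plane) : Prop :=
  ∃ (c : Plane) (A : Matrix (Fin 2) (Fin 2) ℝ), A.PosDef ∧
    E = {x | ∑ i, ∑ j, (x i - c i) * A i j * (x j - c j) = 1}

/-- Every biharmonic function on the plane that vanishes on two distinct ellipses is zero. -/
theorem result (u : Plane → ℝ) (hu : Biharmonic u) (E₁ E₂ : Set Plane) (h₁ : IsEllipse E₁)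
    (h₂ : IsEllipse E₂) (hne : E₁ ≠ E₂) (h : ∀ x ∈ E₁ ∪ E₂, u x = 0) : ∀ x, u x = 0 := by
  obtain ⟨c₁, A₁, hA₁, hE₁⟩ := h₁
  obtain ⟨c₂, A₂, hA₂, hE₂⟩ := h₂
  obtain ⟨l₁, m₁, ρ₁, hl₁, hρ₁, e₁⟩ := Pool.Agent.X92.TE.ellipse_param c₁ A₁ hA₁
  obtain ⟨l₂, m₂, ρ₂, hl₂, hρ₂, e₂⟩ := Pool.Agent.X92.TE.ellipse_param c₂ A₂ hA₂
  have hc : ContDiff ℝ 4 (fun z => u (Pool.Agent.X92.TE.ee z)) := by
    have h1 : ContDiff ℝ 4 u := by
      rw [← contDiffOn_univ]
      exact hu.1.contDiffOn uniqueDiffOn_univ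
    exact h1.comp Pool.Agent.X92.TE.ee.contDiff
  have hΔ : ∀ z, (Δ (Δ (fun z => u (Pool.Agent.X92.TE.ee z)))) z = 0 := by
    intro z
    rw [Pool.Agent.X92.TE.lap_comp u, Pool.Agent.X92.TE.lap_comp (Δ u)]
    exact hu.2 _
  obtain ⟨f, g, hf, hg, hv⟩ := Pool.Agent.X92.TE.rep hc hΔ
  have key : ∀ z : ℂ, (conj z * f z + g z).re = 0 := by
    refine Pool.Agent.X92.TE.complex_form (m₁ := m₁) (m₂ := m₂) hf hg hl₁ hl₂ hρ₁ hρ₂ ?_ ?_ ?_
    · rintro ⟨q1, q2, q3⟩
      apply hne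
      rw [hE₁, hE₂]
      ext x
      obtain ⟨z, rfl⟩ := Pool.Agent.X92.TE.ee.surjective x
      show (_ = (1 : ℝ)) ↔ (_ = (1 : ℝ))
      rw [e₁, e₂, q1, q2, q3]
    · intro z hz
      rw [← hv z]
      apply h
      left
      rw [hE₁]
      exact (e₁ z).2 hz
    · intro z hz
      rw [← hv z]
      apply h
      right
      rw [hE₂]
      exact (e₂ z).2 hz
  intro x
  obtain ⟨z, rfl⟩ := Pool.Agent.X92.TE.ee.surjective x
  rw [hv z]
  exact key z

end Pool.Agent.Results.MP_c27a16_an.TwoEllipses
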